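import Pool.Agent.H143R3.MT.Stmts

/-!
Task G of the project H143-MT: paths with a double jump or with many jumps are rare.
-/

set_option autoImplicit false

namespace Pool.Agent.H844R3.MT.G

open MeasureTheory ProbabilityTheory Filter Topology
open scoped ENNReal NNReal
open Pool.Agent.H143R3.MT

universe u

lemma chain_iff (n : ℕ) : ∀ g : ℕ → ℤ,
    (List.IsChain (fun a b : ℤ => |b - a| ≤ 1) (g 0 :: List.ofFn fun i : Fin n => g ((i : ℕ) + 1)) ↔
      ∀ i < n, |g (i + 1) - g i| ≤ 1) := by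
  induction n with
  | zero => intro g; simp
  | succ n ih =>
    intro g
    rw [List.ofFn_succ]
    have h := ih (fun i => g (i + 1))
    simp only [Fin.val_zero, zero_add, Fin.val_succ] at h ⊢
    rw [List.isChain_cons_cons, h]
    constructor
    · rintro ⟨h1, h2⟩ i hi
      rcases i with _ | i
      · simpa using h1
      · exact h2 i (by omega)
    · intro h1
      refine ⟨by simpa using h1 0 (by omega), fun i hi => h1 (i + 1) (by omega)⟩

lemma jumps_eq (n : ℕ) : ∀ g : ℕ → ℤ,
    jumps (g 0 :: List.ofFn fun i : Fin n => g ((i : ℕ) + 1)) =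
      ∑ i ∈ Finset.range n, if g i ≠ g (i + 1) then 1 else 0 := by
  induction n with
  | zero => intro g; simp [jumps]
  | succ n ih =>
    intro g
    rw [List.ofFn_succ]
    have h := ih (fun i => g (i + 1))
    simp only [Fin.val_zero, zero_add, Fin.val_succ] at h ⊢
    rw [jumps, h, Finset.sum_range_succ']
    simp only [zero_add]
    rw [add_comm]

lemma meas_set {Ω : Type u} [MeasurableSpace Ω] (P : Measure Ω) [IsProbabilityMeasure P] {κ : ℝ≥0}
    {X : ℝ≥0 → Ω → ℤ} (hX : IsWalk P κ X) (h : ℝ≥0) (i : ℕ) (p : ℤ → Prop) [DecidablePred p] :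
    P {ω | p (X (((i + 1 : ℕ) : ℝ≥0) * h) ω - X ((i : ℝ≥0) * h) ω)} =
      ∑' k, (if p k then sk (κ * h) k else 0) := by
  have hl := hX.law ((i : ℝ≥0) * h) (((i + 1 : ℕ) : ℝ≥0) * h) (by
    gcongr
    exact Nat.le_succ i)
  have e : (((i + 1 : ℕ) : ℝ≥0) * h) - (i : ℝ≥0) * h = h := by
    push_cast
    rw [add_mul, one_mul, add_tsub_cancel_left]
  rw [e] at hl
  have hm : Measurable fun ω => X (((i + 1 : ℕ) : ℝ≥0) * h) ω - X ((i : ℝ≥0) * h) ω :=
    (hX.meas _).sub (hX.meas _)
  have h1 : P {ω | p (X (((i + 1 : ℕ) : ℝ≥0) * h) ω - X ((i : ℝ≥0) * h) ω)} =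
      skellam (κ * h) {k | p k} := by
    rw [← hl, Measure.map_apply hm (MeasurableSet.of_discrete)]
    rfl
  rw [h1, ← Measure.tsum_indicator_apply_singleton (skellam (κ * h)) {k | p k}
    (MeasurableSet.of_discrete)]
  congr 1
  funext k
  by_cases hk : p k
  · rw [if_pos hk, Set.indicator_of_mem (by exact hk)]; rfl
  · rw [if_neg hk, Set.indicator_of_notMem (by exact hk)]

theorem taskG : TaskG.{u} := by
  intro hA2 Ω _ P _ κ X hX h n J hJ
  obtain ⟨a1, a2, -⟩ := hA2
  set g : Ω → ℕ → ℤ := fun ω i => X ((i : ℝ≥0) * h) ω with hg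
  set D : ℕ → Ω → ℤ := fun i ω => X (((i + 1 : ℕ) : ℝ≥0) * h) ω - X ((i : ℝ≥0) * h) ω with hD
  have hDm : ∀ i, Measurable (D i) := fun i => (hX.meas _).sub (hX.meas _)
  set S : Ω → ℝ≥0∞ := fun ω => ∑ i ∈ Finset.range n, (if D i ω ≠ 0 then 1 else 0) with hS
  have hsub : {ω | ¬ good J (0 :: gl X h n ω)} ⊆
      {ω | ¬ X 0 ω = 0} ∪ ((⋃ i ∈ Finset.range n, {ω | 2 ≤ |D i ω|}) ∪ {ω | (J : ℝ≥0∞) ≤ S ω}) := by
    intro ω hω
    by_contra hcon
    simp only [Set.mem_union, not_or, Set.mem_setOf_eq, not_not, Set.mem_iUnion, not_exists,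
      not_le, Finset.mem_range] at hcon
    obtain ⟨h0, h1, h2⟩ := hcon
    apply hω
    have e0 : g ω 0 = 0 := by simp only [hg, Nat.cast_zero, zero_mul, h0]
    have e1 : (0 :: gl X h n ω) = g ω 0 :: List.ofFn fun i : Fin n => g ω ((i : ℕ) + 1) := by
      rw [e0]; rfl
    rw [good, e1, chain_iff, jumps_eq]
    constructor
    · intro i hi
      have := h1 i hi
      simp only [hD] at this
      simp only [hg]
      omega
    · have h3 : ((∑ i ∈ Finset.range n, if g ω i ≠ g ω (i + 1) then 1 else 0 : ℕ) : ℝ≥0∞) = S ω := by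
        simp only [hS]
        push_cast
        apply Finset.sum_congr rfl
        intro i _
        have : g ω i ≠ g ω (i + 1) ↔ D i ω ≠ 0 := by
          simp only [hg, hD]
          constructor
          · intro h5 h6; apply h5; omega
          · intro h5 h6; apply h5; omega
        by_cases h5 : D i ω ≠ 0
        · rw [if_pos h5, if_pos (this.2 h5)]
        · rw [if_neg h5, if_neg (fun h6 => h5 (this.1 h6))]
      rw [← h3] at h2
      have h4 : (∑ i ∈ Finset.range n, if g ω i ≠ g ω (i + 1) then 1 else 0 : ℕ) < J := by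
        exact_mod_cast h2
      exact h4.le
  have hA0 : P {ω | ¬ X 0 ω = 0} = 0 := hX.zero
  have hA1 : P (⋃ i ∈ Finset.range n, {ω | 2 ≤ |D i ω|}) ≤ n * ((κ * h) ^ 2 : ℝ≥0) := by
    refine (measure_biUnion_finset_le _ _).trans ?_
    calc ∑ i ∈ Finset.range n, P {ω | 2 ≤ |D i ω|}
        ≤ ∑ i ∈ Finset.range n, (((κ * h) ^ 2 : ℝ≥0) : ℝ≥0∞) := by
          apply Finset.sum_le_sum
          intro i _
          rw [hD, meas_set P hX h i (fun k => 2 ≤ |k|)]
          exact a2 (κ * h)
      _ = n * ((κ * h) ^ 2 : ℝ≥0) := by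
          rw [Finset.sum_const, Finset.card_range, nsmul_eq_mul]
  have hSm : Measurable S := by
    apply Finset.measurable_sum
    intro i _
    exact Measurable.ite ((hDm i) (MeasurableSet.of_discrete (s := {k : ℤ | k ≠ 0})))
      measurable_const measurable_const
  have hSi : ∫⁻ ω, S ω ∂P ≤ n * (κ * h : ℝ≥0) := by
    simp only [hS]
    rw [lintegral_finsetSum]
    · calc ∑ i ∈ Finset.range n, ∫⁻ ω, (if D i ω ≠ 0 then 1 else 0 : ℝ≥0∞) ∂P
          ≤ ∑ i ∈ Finset.range n, ((κ * h : ℝ≥0) : ℝ≥0∞) := by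
            apply Finset.sum_le_sum
            intro i _
            have e : (fun ω => (if D i ω ≠ 0 then 1 else 0 : ℝ≥0∞)) =
                Set.indicator {ω | D i ω ≠ 0} 1 := by
              funext ω
              by_cases h5 : D i ω ≠ 0
              · rw [if_pos h5, Set.indicator_of_mem (by exact h5)]; rfl
              · rw [if_neg h5, Set.indicator_of_notMem (by exact h5)]
            have hms : MeasurableSet {ω | D i ω ≠ 0} :=
              (hDm i) (MeasurableSet.of_discrete (s := {k : ℤ | k ≠ 0}))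
            rw [e]
            refine (lintegral_indicator_one hms).le.trans ?_
            rw [hD, meas_set P hX h i (fun k => k ≠ 0)]
            exact a1 (κ * h)
        _ = n * (κ * h : ℝ≥0) := by
            rw [Finset.sum_const, Finset.card_range, nsmul_eq_mul]
    · intro i _
      exact Measurable.ite ((hDm i) (MeasurableSet.of_discrete (s := {k : ℤ | k ≠ 0})))
        measurable_const measurable_const
  have hA3 : P {ω | (J : ℝ≥0∞) ≤ S ω} ≤ n * (κ * h : ℝ≥0) / J := by
    have hJ0 : (J : ℝ≥0∞) ≠ 0 := by exact_mod_cast hJ.ne'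
    have hJt : (J : ℝ≥0∞) ≠ ∞ := ENNReal.natCast_ne_top J
    exact (meas_ge_le_lintegral_div hSm.aemeasurable hJ0 hJt).trans
      (ENNReal.div_le_div_right hSi _)
  calc P {ω | ¬ good J (0 :: gl X h n ω)}
      ≤ P ({ω | ¬ X 0 ω = 0} ∪ ((⋃ i ∈ Finset.range n, {ω | 2 ≤ |D i ω|}) ∪
          {ω | (J : ℝ≥0∞) ≤ S ω})) := measure_mono hsub
    _ ≤ P {ω | ¬ X 0 ω = 0} + (P (⋃ i ∈ Finset.range n, {ω | 2 ≤ |D i ω|}) +
          P {ω | (J : ℝ≥0∞) ≤ S ω}) :=
        (measure_union_le _ _).trans (add_le_add le_rfl (measure_union_le _ _))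
    _ ≤ 0 + (n * ((κ * h) ^ 2 : ℝ≥0) + n * (κ * h : ℝ≥0) / J) := by
        rw [hA0]
        exact add_le_add le_rfl (add_le_add hA1 hA3)
    _ = ENNReal.ofReal (n * (κ * h) ^ 2 + κ * (n * h) / J) := by
        rw [zero_add, ENNReal.ofReal_add (by positivity) (by positivity)]
        congr 1
        · rw [ENNReal.ofReal_mul (by positivity), ENNReal.ofReal_natCast]
          congr 1
          rw [← ENNReal.ofReal_coe_nnreal]
          push_cast
          rfl
        · rw [ENNReal.ofReal_div_of_pos (by exact_mod_cast hJ), ENNReal.ofReal_natCast]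
          congr 1
          rw [show (κ : ℝ) * (n * h) = n * (κ * h : ℝ≥0) by push_cast; ring,
            ENNReal.ofReal_mul (by positivity), ENNReal.ofReal_natCast,
            ENNReal.ofReal_coe_nnreal]

end Pool.Agent.H844R3.MT.G
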